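import Pool.Agent.H44.DV.Targets

/-!
# The closed leaves are hyperbolic
-/

set_option autoImplicit false

namespace Pool.Agent.H49.DV.HY

open Pool.Agent.H44.DU

lemma wd_add {n : ℕ} (W : ℕ → Side n) (m k : ℕ) (hW : ∀ j, W (j + m) = W j) :
    wd W (m + k) = wd W m ++ wd W k := by
  simp only [wd, List.range_add, List.map_append, List.map_map]
  congr 1
  apply List.map_congr_left
  intro j _
  simp only [Function.comp]
  rw [add_comm]
  exact hW j

lemma take_wd {n : ℕ} (W : ℕ → Side n) {k l : ℕ} (h : k ≤ l) : (wd W l).take k = wd W k := by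
  simp only [wd]
  rw [← List.map_take, List.take_range, Nat.min_eq_left h]

theorem pf_HY (h1 : D_PE) (h2 : T_LH) : D_HY := by
  intro n S t c₀ hGd hc hG m y hy hprod
  have hm : 0 < m := hy.1
  obtain ⟨hz, hper⟩ := S.cyc_chain hy
  have hW : ∀ k, (fun k => (y (k % m)).1) (k + m) = (fun k => (y (k % m)).1) k := by
    intro k
    simp only [hper k]
  generalize hWdef : (fun k => (y (k % m)).1) = W at hW
  have hwd : ∀ k, (List.range k).map (fun j => (y ((0 + j) % m)).1) = wd W k := by
    intro k
    rw [← hWdef]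
    simp only [wd, zero_add]
  have hrun : ∀ k, S.Run t (wd W k) (y (0 % m)).2 := by
    intro k
    rw [← hwd k]
    exact (S.chain_run (y := fun k => y (k % m)) hz 0 k).1
  have hgx : S.g t (wd W m) (y (0 % m)).2 = (y (0 % m)).2 := by
    rw [← hwd m]
    rw [(S.chain_run (y := fun k => y (k % m)) hz 0 m).2.1, hper 0]
  have hA : S.A (wd W m) = 1 := by
    rw [← hwd m, (S.chain_run (y := fun k => y (k % m)) hz 0 m).2.2, ← hprod]
    apply Finset.prod_congr rfl
    intro j hj
    rw [zero_add, Nat.mod_eq_of_lt (Finset.mem_range.1 hj)]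
  have hg : ∀ x, S.g t (wd W m) x = x := by
    intro x
    simp only [Surf.g, hA, one_mul] at hgx ⊢
    linarith
  have hne : wd W m ≠ [] := by
    intro h
    have := congrArg List.length h
    simp [wd] at this
    omega
  have hlh := (h2 n S t (wd W m) hne (y (0 % m)).2).1 (hrun m)
  have hk : ∀ (q : ℕ) (x : ℝ), S.lo t (wd W m) < x → x < S.hi t (wd W m) →
      S.Run t (wd W (q * m)) x := by
    intro q
    induction q with
    | zero => intro x _ _; simp only [zero_mul, wd, List.range_zero, List.map_nil]; trivial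
    | succ q ih =>
      intro x hx1 hx2
      have e : wd W ((q + 1) * m) = wd W m ++ wd W (q * m) := by
        rw [show (q + 1) * m = m + q * m by ring]
        exact wd_add W m _ hW
      have h0 := hrun ((q + 1) * m)
      rw [e, S.run_append] at h0
      rw [e, S.run_append]
      refine ⟨(h2 n S t (wd W m) hne x).2 ⟨hlh.1, hx1, hx2⟩, h0.2.1, ?_⟩
      rw [hg x]
      exact ih x hx1 hx2
  have hFr : S.Fr t W (S.lo t (wd W m)) (S.hi t (wd W m)) := by
    intro k x hx1 hx2
    have h3 := S.run_take (hk k x hx1 hx2) k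
    rwa [take_wd W (Nat.le_mul_of_pos_right k hm)] at h3
  have h4 := (h1 n S t c₀ hGd hc hG W _ _ m (hlh.2.1.trans hlh.2.2) hFr hm hW).1
  rw [hA] at h4
  exact lt_irrefl _ h4

end Pool.Agent.H49.DV.HY
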